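import Mathlib

/-!
Algebraic preliminaries for the cubic surface of `MP_3a7aac_nt`: the norm form of the cubic field
of discriminant `-23`, over `ℤ` and (for the maximal order of its Galois closure) over
`ℤ[(1+√-23)/2]`.
-/

namespace Pool.Agent.H887Cub

/-- The norm form of `a + b ρ + c ρ²`, `ρ³ = ρ + 1`. -/
def N3 {R : Type*} [CommRing R] (a b c : R) : R :=
  a ^ 3 + b ^ 3 + c ^ 3 + 2 * a ^ 2 * c - a * b ^ 2 + a * c ^ 2 - b * c ^ 2 - 3 * a * b * c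

/-- The norm form of `a + b ρ + c η`, `η = (ρ² + 10 ρ + 7) / s`, `s² = -23`. -/
def Np {R : Type*} [CommRing R] (s a b c : R) : R :=
  a ^ 3 + b ^ 3 - a * b ^ 2 - 2 * a * c ^ 2 - 6 * b * c ^ 2
    + s * (c ^ 3 - a ^ 2 * c + a * b * c - b ^ 2 * c)

theorem N3_root {R : Type*} [CommRing R] (a b c r : R) (hr : r ^ 3 - r - 1 = 0) :
    N3 a b c = (a + b * r + c * r ^ 2) *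
      (a ^ 2 - a * b * r - a * c * r ^ 2 + 2 * a * c + b ^ 2 * r ^ 2 - b ^ 2 - b * c + c ^ 2
        - c ^ 2 * r ^ 2 + c ^ 2 * r) := by
  unfold N3
  linear_combination (-(-a * c ^ 2 * r + b ^ 2 * c * r - c ^ 3 * r - 2 * a * b * c - b * c ^ 2
    + b ^ 3 + c ^ 3)) * hr

/-- Relation of the two norm forms. -/
theorem Np_N3 {R : Type*} [CommRing R] (s a b c : R) (hs : s ^ 2 = -23) :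
    s ^ 3 * Np s a b c = N3 (s * a + 7 * c) (s * b + 10 * c) c := by
  unfold N3 Np
  linear_combination (a * b * c * s ^ 2 - a ^ 2 * c * s ^ 2 - b ^ 2 * c * s ^ 2 + c ^ 3 * s ^ 2 - 2 * a * c ^ 2 *
    s - 6 * b * c ^ 2 * s - 23 * c ^ 3) * hs

/-- First coordinate of the relative norm. -/
def W0 (a0 a1 b0 b1 c0 c1 : ℤ) : ℤ :=
  24 * a0 * a1 * c0 + 12 * a0 * a1 * c1 - 18 * a0 * a1 ^ 2 - a0 * b0 * c0 - 12 * a0 * b0 * c1 -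
  a0 * b0 ^ 2 - 12 * a0 * b1 * c0 - 6 * a0 * b1 * c1 + 6 * a0 * b1 ^ 2 - 2 * a0 * c0 ^ 2 + 12 *
  a0 * c1 ^ 2 + a0 ^ 2 * c0 + 12 * a0 ^ 2 * c1 + a0 ^ 3 + 12 * a1 * b0 * b1 - 12 * a1 * b0 * c0
  - 6 * a1 * b0 * c1 - 6 * a1 * b1 * c0 + 66 * a1 * b1 * c1 + 6 * a1 * b1 ^ 2 + 24 * a1 * c0 *
  c1 + 12 * a1 * c1 ^ 2 + 6 * a1 ^ 2 * c0 - 66 * a1 ^ 2 * c1 - 6 * a1 ^ 3 + 24 * b0 * b1 * c0 +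
  12 * b0 * b1 * c1 - 18 * b0 * b1 ^ 2 - 6 * b0 * c0 ^ 2 + 36 * b0 * c1 ^ 2 + b0 ^ 2 * c0 + 12
  * b0 ^ 2 * c1 + b0 ^ 3 + 72 * b1 * c0 * c1 + 36 * b1 * c1 ^ 2 + 6 * b1 ^ 2 * c0 - 66 * b1 ^ 2
  * c1 - 6 * b1 ^ 3 - 18 * c0 * c1 ^ 2 - 36 * c0 ^ 2 * c1 - c0 ^ 3 + 66 * c1 ^ 3

/-- Second coordinate of the relative norm. -/
def W1 (a0 a1 b0 b1 c0 c1 : ℤ) : ℤ :=
  -2 * a0 * a1 * c0 + 22 * a0 * a1 * c1 + 3 * a0 * a1 ^ 2 - 2 * a0 * b0 * b1 + 2 * a0 * b0 * c0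
  + a0 * b0 * c1 + a0 * b1 * c0 - 11 * a0 * b1 * c1 - a0 * b1 ^ 2 - 4 * a0 * c0 * c1 - 2 * a0 *
  c1 ^ 2 + 3 * a0 ^ 2 * a1 - 2 * a0 ^ 2 * c0 - a0 ^ 2 * c1 - 2 * a1 * b0 * b1 + a1 * b0 * c0 -
  11 * a1 * b0 * c1 - a1 * b0 ^ 2 - 11 * a1 * b1 * c0 - 17 * a1 * b1 * c1 + 5 * a1 * b1 ^ 2 - 4
  * a1 * c0 * c1 - 2 * a1 * c0 ^ 2 + 10 * a1 * c1 ^ 2 + 11 * a1 ^ 2 * c0 + 17 * a1 ^ 2 * c1 - 5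
  * a1 ^ 3 - 2 * b0 * b1 * c0 + 22 * b0 * b1 * c1 + 3 * b0 * b1 ^ 2 - 12 * b0 * c0 * c1 - 6 *
  b0 * c1 ^ 2 + 3 * b0 ^ 2 * b1 - 2 * b0 ^ 2 * c0 - b0 ^ 2 * c1 - 12 * b1 * c0 * c1 - 6 * b1 *
  c0 ^ 2 + 30 * b1 * c1 ^ 2 + 11 * b1 ^ 2 * c0 + 17 * b1 ^ 2 * c1 - 5 * b1 ^ 3 - 33 * c0 * c1 ^
  2 + 3 * c0 ^ 2 * c1 + 2 * c0 ^ 3 - 17 * c1 ^ 3

theorem W_eq {R : Type*} [CommRing R] (θ : R) (hθ : θ ^ 2 = θ - 6) (a0 a1 b0 b1 c0 c1 : ℤ) :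
    ((W0 a0 a1 b0 b1 c0 c1 : ℤ) : R) + ((W1 a0 a1 b0 b1 c0 c1 : ℤ) : R) * θ
      = Np (2 * θ - 1) (a0 + a1 * θ) (b0 + b1 * θ) (c0 + c1 * θ) := by
  unfold W0 W1 Np
  push_cast
  linear_combination (-(2 * a1 * b1 * c1 * θ ^ 2 - 2 * a1 ^ 2 * c1 * θ ^ 2 - 2 * b1 ^ 2 * c1 * θ ^ 2 + 2 * c1 ^ 3 *
    θ ^ 2 - 4 * a0 * a1 * c1 * θ + 2 * a0 * b1 * c1 * θ + 2 * a1 * b0 * c1 * θ + 2 * a1 * b1 *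
    c0 * θ + a1 * b1 * c1 * θ - a1 * b1 ^ 2 * θ - 2 * a1 * c1 ^ 2 * θ - 2 * a1 ^ 2 * c0 * θ -
    a1 ^ 2 * c1 * θ + a1 ^ 3 * θ - 4 * b0 * b1 * c1 * θ - 6 * b1 * c1 ^ 2 * θ - 2 * b1 ^ 2 * c0
    * θ - b1 ^ 2 * c1 * θ + b1 ^ 3 * θ + 6 * c0 * c1 ^ 2 * θ + c1 ^ 3 * θ - 4 * a0 * a1 * c0 -
    2 * a0 * a1 * c1 + 3 * a0 * a1 ^ 2 + 2 * a0 * b0 * c1 + 2 * a0 * b1 * c0 + a0 * b1 * c1 -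
    a0 * b1 ^ 2 - 2 * a0 * c1 ^ 2 - 2 * a0 ^ 2 * c1 - 2 * a1 * b0 * b1 + 2 * a1 * b0 * c0 + a1
    * b0 * c1 + a1 * b1 * c0 - 11 * a1 * b1 * c1 - a1 * b1 ^ 2 - 4 * a1 * c0 * c1 - 2 * a1 * c1
    ^ 2 - a1 ^ 2 * c0 + 11 * a1 ^ 2 * c1 + a1 ^ 3 - 4 * b0 * b1 * c0 - 2 * b0 * b1 * c1 + 3 *
    b0 * b1 ^ 2 - 6 * b0 * c1 ^ 2 - 2 * b0 ^ 2 * c1 - 12 * b1 * c0 * c1 - 6 * b1 * c1 ^ 2 - b1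
    ^ 2 * c0 + 11 * b1 ^ 2 * c1 + b1 ^ 3 + 3 * c0 * c1 ^ 2 + 6 * c0 ^ 2 * c1 - 11 * c1 ^ 3)) * hθ

end Pool.Agent.H887Cub
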