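import Pool.Agent.H887_Cub.Rep

namespace Pool.Agent.H887Cub

/-- The nonprincipal form of discriminant `-23`. -/
def fq (X Y : ℤ) : ℤ := 2 * X ^ 2 - X * Y + 3 * Y ^ 2

theorem fq_comp (A B X Y : ℤ) :
    fq (X * A + 3 * B * Y) ((A + B) * Y - 2 * B * X) = nrm A B * fq X Y := by
  unfold fq nrm; ring

theorem divide_aux (p : ℕ) (hp : p.Prime) (h2 : p ≠ 2) (A B X Y : ℤ) (hAB : nrm A B = p)
    (h : (p : ℤ) ∣ fq X Y) (hY : (p : ℤ) ∣ (A + B) * Y - 2 * B * X) :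
    ∃ X1 Y1 : ℤ, p * fq X1 Y1 = fq X Y := by
  have hpz : Prime (p : ℤ) := Nat.prime_iff_prime_int.mp hp
  have hp0 : (p : ℤ) ≠ 0 := by exact_mod_cast hp.ne_zero
  obtain ⟨Y1, hY1⟩ := hY
  have hc := fq_comp A B X Y
  rw [hAB, hY1] at hc
  have h3 : (p : ℤ) ∣ 2 * (X * A + 3 * B * Y) ^ 2 := by
    obtain ⟨k, hk⟩ := h
    refine ⟨fq X Y + (X * A + 3 * B * Y) * Y1 - 3 * p * Y1 ^ 2, ?_⟩
    unfold fq at hc ⊢
    linear_combination hc
  have h4 : (p : ℤ) ∣ X * A + 3 * B * Y := by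
    rcases hpz.dvd_or_dvd h3 with h5 | h5
    · exfalso
      have h6 : p ∣ 2 := by exact_mod_cast h5
      exact h2 ((Nat.prime_dvd_prime_iff_eq hp Nat.prime_two).mp h6)
    · exact hpz.dvd_of_dvd_pow h5
  obtain ⟨X1, hX1⟩ := h4
  refine ⟨X1, Y1, ?_⟩
  rw [hX1] at hc
  have h7 : (p : ℤ) * (p * fq X1 Y1) = p * fq X Y := by
    rw [← hc]; unfold fq; ring
  exact mul_left_cancel₀ hp0 h7

theorem divide (p : ℕ) (hp : p.Prime) (h2 : p ≠ 2) (A B X Y : ℤ) (hAB : nrm A B = p)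
    (h : (p : ℤ) ∣ fq X Y) : ∃ X1 Y1 : ℤ, p * fq X1 Y1 = fq X Y := by
  have hpz : Prime (p : ℤ) := Nat.prime_iff_prime_int.mp hp
  have h3 : (p : ℤ) ∣ ((A + B) * Y - 2 * B * X) * (((A + B) + (-B)) * Y - 2 * (-B) * X) := by
    have h4 : ((A + B) * Y - 2 * B * X) * (((A + B) + (-B)) * Y - 2 * (-B) * X)
        = nrm A B * Y ^ 2 - 2 * B ^ 2 * fq X Y := by
      unfold nrm fq; ring
    rw [h4, hAB]
    exact dvd_sub (Dvd.intro _ rfl) (h.mul_left _)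
  rcases hpz.dvd_or_dvd h3 with h5 | h5
  · exact divide_aux p hp h2 A B X Y hAB h h5
  · refine divide_aux p hp h2 (A + B) (-B) X Y ?_ h h5
    rw [← hAB]; unfold nrm; ring

theorem fq_pos (X Y : ℤ) : 0 ≤ fq X Y := by
  unfold fq; nlinarith [sq_nonneg (4 * X - Y), sq_nonneg Y]

theorem fq_eq_zero {X Y : ℤ} (h : fq X Y = 0) : X = 0 ∧ Y = 0 := by
  unfold fq at h
  have hY : Y = 0 := by
    by_contra hY
    have : 0 < Y ^ 2 := by positivity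
    nlinarith [sq_nonneg (4 * X - Y)]
  subst hY
  refine ⟨?_, rfl⟩
  have : X ^ 2 = 0 := by linarith
  exact pow_eq_zero_iff two_ne_zero |>.mp this

theorem fq_ne_one (X Y : ℤ) : fq X Y ≠ 1 := by
  intro h
  unfold fq at h
  have hY : Y = 0 := by
    by_contra hY
    have : 1 ≤ Y ^ 2 := by
      have : 0 < Y ^ 2 := by positivity
      omega
    nlinarith [sq_nonneg (4 * X - Y)]
  subst hY
  have : 2 * X ^ 2 = 1 := by linarith
  omega

/-- The key descent: an odd number all of whose prime factors are `23` or have a root of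
`X³ - X - 1` is not represented by `2X² - XY + 3Y²`. -/
theorem no_rep (m : ℕ) (hm : 0 < m)
    (hpr : ∀ q : ℕ, q.Prime → q ∣ m → q ≠ 2 ∧ q ≠ 3 ∧ (q = 23 ∨ ∃ r : ℤ, (q : ℤ) ∣ r ^ 3 - r - 1))
    (X Y : ℤ) : fq X Y ≠ m := by
  induction m using Nat.strong_induction_on generalizing X Y with
  | _ m ih =>
  intro h
  by_cases hm1 : m = 1
  · subst hm1
    exact fq_ne_one X Y (by exact_mod_cast h)
  obtain ⟨q, hq, hqm⟩ := Nat.exists_prime_and_dvd hm1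
  obtain ⟨hq2, hq3, hq4⟩ := hpr q hq hqm
  have hqz : Prime (q : ℤ) := Nat.prime_iff_prime_int.mp hq
  have hqf : (q : ℤ) ∣ fq X Y := by rw [h]; exact_mod_cast hqm
  obtain ⟨m', rfl⟩ := hqm
  have hm'0 : 0 < m' := Nat.pos_of_mul_pos_left hm |> fun h => by
    rcases Nat.eq_zero_or_pos m' with h0 | h0
    · subst h0; simp at hm
    · exact h0
  have hlt : m' < q * m' := by
    have := hq.two_le
    nlinarith
  have hq0 : (q : ℤ) ≠ 0 := by exact_mod_cast hq.ne_zero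
  have hfin : (∃ A B : ℤ, nrm A B = q) → False := by
    rintro ⟨A, B, hAB⟩
    obtain ⟨X1, Y1, h1⟩ := divide q hq hq2 A B X Y hAB hqf
    refine ih m' hlt hm'0 (fun l hl hlm => hpr l hl (hlm.mul_left q)) X1 Y1 ?_
    rw [h] at h1
    push_cast at h1
    exact mul_left_cancel₀ hq0 h1
  by_cases hXY : (q : ℤ) ∣ X ∧ (q : ℤ) ∣ Y
  · obtain ⟨⟨X1, rfl⟩, ⟨Y1, rfl⟩⟩ := hXY
    have h1 : (q : ℤ) * fq X1 Y1 = m' := by
      have : (q : ℤ) * (q * fq X1 Y1) = q * m' := by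
        push_cast at h
        rw [← h]; unfold fq; ring
      exact mul_left_cancel₀ hq0 this
    have hqm' : q ∣ m' := by
      have : (q : ℤ) ∣ m' := Dvd.intro _ h1
      exact_mod_cast this
    obtain ⟨m'', rfl⟩ := hqm'
    have hm''0 : 0 < m'' := by
      rcases Nat.eq_zero_or_pos m'' with h0 | h0
      · subst h0; simp at hm'0
      · exact h0
    have hlt2 : m'' < q * (q * m'') := by
      have := hq.two_le
      nlinarith
    refine ih m'' hlt2 hm''0 (fun l hl hlm => hpr l hl ((hlm.mul_left q).mul_left q)) X1 Y1 ?_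
    push_cast at h1
    exact mul_left_cancel₀ hq0 h1
  · apply hfin
    rcases hq4 with h23 | ⟨r, hr⟩
    · exact ⟨-1, 2, by rw [h23]; norm_num [nrm]⟩
    by_cases h23 : q = 23
    · exact ⟨-1, 2, by rw [h23]; norm_num [nrm]⟩
    have := Fact.mk hq
    have hYn : ¬ (q : ℤ) ∣ Y := by
      intro hY
      apply hXY
      refine ⟨?_, hY⟩
      have h5 : (q : ℤ) ∣ 2 * X ^ 2 := by
        obtain ⟨k, hk⟩ := hqf
        obtain ⟨Y1, rfl⟩ := hY
        refine ⟨k + X * Y1 - 3 * q * Y1 ^ 2, ?_⟩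
        unfold fq at hk
        linear_combination hk
      rcases hqz.dvd_or_dvd h5 with h6 | h6
      · exfalso
        have h7 : q ∣ 2 := by exact_mod_cast h6
        exact hq2 ((Nat.prime_dvd_prime_iff_eq hq Nat.prime_two).mp h7)
      · exact hqz.dvd_of_dvd_pow h6
    have hY0 : ((Y : ℤ) : ZMod q) ≠ 0 := by
      intro h5
      exact hYn ((ZMod.intCast_zmod_eq_zero_iff_dvd _ _).mp h5)
    obtain ⟨u, hu⟩ := ZMod.intCast_surjective (2 * (X : ZMod q) / (Y : ZMod q))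
    refine rep q hq hq2 hq3 h23 r hr u ?_
    rw [← ZMod.intCast_zmod_eq_zero_iff_dvd]
    push_cast
    rw [hu]
    have h8 : ((fq X Y : ℤ) : ZMod q) = 0 := (ZMod.intCast_zmod_eq_zero_iff_dvd _ _).mpr hqf
    unfold fq at h8
    push_cast at h8
    field_simp
    linear_combination 2 * h8

theorem eight_aux : ∀ x y : ZMod 8, 2 * x ^ 2 - x * y + 3 * y ^ 2 = 0 → ¬ (4 * x = 0 ∧ 4 * y = 0) →
    (x + 3 * y = 0 ∧ 2 * y - 2 * x = 0) ∨ (2 * x - 3 * y = 0 ∧ y + 2 * x = 0) := by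
  decide

theorem div_eight (X Y : ℤ) (h : (8 : ℤ) ∣ fq X Y) (hodd : ¬ ((2 : ℤ) ∣ X ∧ (2 : ℤ) ∣ Y)) :
    ∃ X1 Y1 : ℤ, 8 * fq X1 Y1 = fq X Y ∧ ¬ ((2 : ℤ) ∣ X1 ∧ (2 : ℤ) ∣ Y1) := by
  have h1 : ((fq X Y : ℤ) : ZMod 8) = 0 := (ZMod.intCast_zmod_eq_zero_iff_dvd _ 8).mpr h
  unfold fq at h1
  push_cast at h1
  have h2 : ¬ (4 * (X : ZMod 8) = 0 ∧ 4 * (Y : ZMod 8) = 0) := by
    rintro ⟨h3, h4⟩
    apply hodd
    have h5 : ((4 * X : ℤ) : ZMod 8) = 0 := by push_cast; exact h3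
    have h6 : ((4 * Y : ℤ) : ZMod 8) = 0 := by push_cast; exact h4
    rw [ZMod.intCast_zmod_eq_zero_iff_dvd] at h5 h6
    push_cast at h5 h6
    omega
  rcases eight_aux _ _ h1 h2 with ⟨h3, h4⟩ | ⟨h3, h4⟩
  · have h5 : ((X + 3 * Y : ℤ) : ZMod 8) = 0 := by push_cast; exact h3
    have h6 : ((2 * Y - 2 * X : ℤ) : ZMod 8) = 0 := by push_cast; exact h4
    rw [ZMod.intCast_zmod_eq_zero_iff_dvd] at h5 h6
    push_cast at h5 h6
    obtain ⟨X1, hX1⟩ := h5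
    obtain ⟨Y1, hY1⟩ := h6
    refine ⟨X1, Y1, ?_, ?_⟩
    · have hY : Y = Y1 + 2 * X1 := by omega
      have hX : X = 2 * X1 - 3 * Y1 := by omega
      rw [hX, hY]; unfold fq; ring
    · rintro ⟨h7, h8⟩
      apply hodd
      omega
  · have h5 : ((2 * X - 3 * Y : ℤ) : ZMod 8) = 0 := by push_cast; exact h3
    have h6 : ((Y + 2 * X : ℤ) : ZMod 8) = 0 := by push_cast; exact h4
    rw [ZMod.intCast_zmod_eq_zero_iff_dvd] at h5 h6
    push_cast at h5 h6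
    obtain ⟨X1, hX1⟩ := h5
    obtain ⟨Y1, hY1⟩ := h6
    refine ⟨X1, Y1, ?_, ?_⟩
    · have hX : X = X1 + 3 * Y1 := by omega
      have hY : Y = 2 * Y1 - 2 * X1 := by omega
      rw [hX, hY]; unfold fq; ring
    · rintro ⟨h7, h8⟩
      apply hodd
      omega

theorem div_eight_pow (k : ℕ) : ∀ (m X Y : ℤ), fq X Y = 8 ^ k * m →
    ¬ ((2 : ℤ) ∣ X ∧ (2 : ℤ) ∣ Y) → ∃ X1 Y1 : ℤ, fq X1 Y1 = m := by
  induction k with
  | zero => intro m X Y h _; exact ⟨X, Y, by rw [h]; ring⟩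
  | succ k ih =>
    intro m X Y h hodd
    have h8 : (8 : ℤ) ∣ fq X Y := by
      rw [h]; exact ⟨8 ^ k * m, by ring⟩
    obtain ⟨X1, Y1, h1, h2⟩ := div_eight X Y h8 hodd
    refine ih m X1 Y1 ?_ h2
    have : 8 * fq X1 Y1 = 8 * (8 ^ k * m) := by rw [h1, h]; ring
    linarith

theorem noroot2 : ∀ r : ZMod 2, r ^ 3 - r - 1 ≠ 0 := by decide

/-- The power of two in a value of the norm form. -/
theorem two_part (n : ℕ) : ∀ a b c : ℤ, a.natAbs + b.natAbs + c.natAbs ≤ n →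
    ¬ (a = 0 ∧ b = 0 ∧ c = 0) →
    ∃ (k : ℕ) (a' b' c' : ℤ), N3 a b c = 8 ^ k * N3 a' b' c' ∧ ¬ (2 : ℤ) ∣ N3 a' b' c' := by
  induction n using Nat.strong_induction_on with
  | _ n ih =>
  intro a b c hn hnz
  by_cases h2 : (2 : ℤ) ∣ N3 a b c
  · have h3 : ((N3 a b c : ℤ) : ZMod 2) = 0 := (ZMod.intCast_zmod_eq_zero_iff_dvd _ 2).mpr h2
    rw [N3_cast] at h3
    have := Fact.mk Nat.prime_two
    obtain ⟨ha, hb, hc⟩ := N3_aniso _ _ _ h3 noroot2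
    rw [ZMod.intCast_zmod_eq_zero_iff_dvd] at ha hb hc
    push_cast at ha hb hc
    obtain ⟨a1, rfl⟩ := ha
    obtain ⟨b1, rfl⟩ := hb
    obtain ⟨c1, rfl⟩ := hc
    have hnz1 : ¬ (a1 = 0 ∧ b1 = 0 ∧ c1 = 0) := by
      rintro ⟨h4, h5, h6⟩
      apply hnz
      rw [h4, h5, h6]; simp
    obtain ⟨k, a', b', c', h7, h8⟩ := ih (a1.natAbs + b1.natAbs + c1.natAbs) (by omega) a1 b1 c1
      le_rfl hnz1
    refine ⟨k + 1, a', b', c', ?_, h8⟩
    have : N3 (2 * a1) (2 * b1) (2 * c1) = 8 * N3 a1 b1 c1 := by unfold N3; ring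
    rw [this, h7]; ring
  · exact ⟨0, a, b, c, by ring, h2⟩

end Pool.Agent.H887Cub
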