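import Pool.Agent.H887_Cub.Forms

namespace Pool.Agent.H887Cub

theorem mod2_fact : ∀ x y z t : ZMod 2,
    x ^ 3 + 2 * x ^ 2 * y + y ^ 3 + y ^ 2 * z + x * z ^ 2 + z ^ 3 + t ^ 2 * x - t ^ 2 * y
      - t ^ 2 * z + t * y * z + t ^ 3 = 0 → ¬ (x = 0 ∧ y = 0 ∧ z = 0 ∧ t = 0) →
    ¬ (-8 * x ^ 3 - 9 * x ^ 2 * y + 21 * x ^ 2 * z + 7 * x ^ 2 * t + 46 * x * y ^ 2 + 49 * x * y *
      z - 13 * x * y * t + 3 * x * z ^ 2 - 13 * x * z * t + 13 * y ^ 3 + 20 * y ^ 2 * z - 2 * y ^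
      2 * t + y * z ^ 2 - 4 * y * z * t - 6 * z ^ 3 - 2 * z ^ 2 * t = 0 ∧
      5 * x ^ 3 + 30 * x ^ 2 * y + 5 * x ^ 2 * z - 5 * x ^ 2 * t + 32 * x * y ^ 2 + 18 * x * y *
      z - 10 * x * y * t - 14 * x * z ^ 2 - 10 * x * z * t - 10 * y ^ 3 - 24 * y ^ 2 * z + 4 * y
      ^ 2 * t - 18 * y * z ^ 2 + 8 * y * z * t - 4 * z ^ 3 + 4 * z ^ 2 * t = 0) := by
  decide

theorem mod3_fact : ∀ x y z t : ZMod 3,
    x ^ 3 + 2 * x ^ 2 * y + y ^ 3 + y ^ 2 * z + x * z ^ 2 + z ^ 3 + t ^ 2 * x - t ^ 2 * y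
      - t ^ 2 * z + t * y * z + t ^ 3 = 0 → ¬ (x = 0 ∧ y = 0 ∧ z = 0 ∧ t = 0) →
    2 * (-8 * x ^ 3 - 9 * x ^ 2 * y + 21 * x ^ 2 * z + 7 * x ^ 2 * t + 46 * x * y ^ 2 + 49 * x * y *
      z - 13 * x * y * t + 3 * x * z ^ 2 - 13 * x * z * t + 13 * y ^ 3 + 20 * y ^ 2 * z - 2 * y ^
      2 * t + y * z ^ 2 - 4 * y * z * t - 6 * z ^ 3 - 2 * z ^ 2 * t) ^ 2
      - (-8 * x ^ 3 - 9 * x ^ 2 * y + 21 * x ^ 2 * z + 7 * x ^ 2 * t + 46 * x * y ^ 2 + 49 * x * y *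
      z - 13 * x * y * t + 3 * x * z ^ 2 - 13 * x * z * t + 13 * y ^ 3 + 20 * y ^ 2 * z - 2 * y ^
      2 * t + y * z ^ 2 - 4 * y * z * t - 6 * z ^ 3 - 2 * z ^ 2 * t)
      * (5 * x ^ 3 + 30 * x ^ 2 * y + 5 * x ^ 2 * z - 5 * x ^ 2 * t + 32 * x * y ^ 2 + 18 * x * y *
      z - 10 * x * y * t - 14 * x * z ^ 2 - 10 * x * z * t - 10 * y ^ 3 - 24 * y ^ 2 * z + 4 * y
      ^ 2 * t - 18 * y * z ^ 2 + 8 * y * z * t - 4 * z ^ 3 + 4 * z ^ 2 * t)
      + 3 * (5 * x ^ 3 + 30 * x ^ 2 * y + 5 * x ^ 2 * z - 5 * x ^ 2 * t + 32 * x * y ^ 2 + 18 * x * y *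
      z - 10 * x * y * t - 14 * x * z ^ 2 - 10 * x * z * t - 10 * y ^ 3 - 24 * y ^ 2 * z + 4 * y
      ^ 2 * t - 18 * y * z ^ 2 + 8 * y * z * t - 4 * z ^ 3 + 4 * z ^ 2 * t) ^ 2
      ≠ 0 := by
  decide

theorem primitive_case (x y z t : ℤ) (hF : FF x y z t = 0)
    (hprim : ∀ q : ℕ, q.Prime → ¬ ((q : ℤ) ∣ x ∧ (q : ℤ) ∣ y ∧ (q : ℤ) ∣ z ∧ (q : ℤ) ∣ t)) :
    False := by
  have hid := main_identity x y z t
  rw [hF, zero_mul, add_zero] at hid
  -- the quadratic forms are not all zero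
  have hQ : ¬ (Q0 x y z t = 0 ∧ Q1 x y z t = 0 ∧ Q2 x y z t = 0) := by
    rintro ⟨h0, h1, h2⟩
    have cx := cert_x x y z t
    have cy := cert_y x y z t
    have cz := cert_z x y z t
    have ct := cert_t x y z t
    rw [h0, h1, h2, hF] at cx cy cz ct
    simp only [zero_mul, add_zero] at cx cy cz ct
    have hx : x = 0 := by
      have : x ^ 6 = 0 := by linarith
      exact pow_eq_zero_iff (by norm_num) |>.mp this
    have hy : y = 0 := by
      have : y ^ 6 = 0 := by linarith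
      exact pow_eq_zero_iff (by norm_num) |>.mp this
    have hz : z = 0 := by
      have : z ^ 6 = 0 := by linarith
      exact pow_eq_zero_iff (by norm_num) |>.mp this
    have ht : t = 0 := by
      have : t ^ 6 = 0 := by linarith
      exact pow_eq_zero_iff (by norm_num) |>.mp this
    apply hprim 2 Nat.prime_two
    rw [hx, hy, hz, ht]
    simp
  obtain ⟨k, a', b', c', hk, hodd⟩ := two_part _ _ _ _ le_rfl hQ
  -- parity of the cubic forms
  have hXY : ¬ ((2 : ℤ) ∣ XX x y z t ∧ (2 : ℤ) ∣ YY x y z t) := by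
    rintro ⟨h1, h2⟩
    have h1' : ((XX x y z t : ℤ) : ZMod 2) = 0 := (ZMod.intCast_zmod_eq_zero_iff_dvd _ 2).mpr h1
    have h2' : ((YY x y z t : ℤ) : ZMod 2) = 0 := (ZMod.intCast_zmod_eq_zero_iff_dvd _ 2).mpr h2
    have hF' : ((FF x y z t : ℤ) : ZMod 2) = 0 := by rw [hF]; simp
    unfold XX at h1'
    unfold YY at h2'
    unfold FF at hF'
    push_cast at h1' h2' hF'
    refine mod2_fact _ _ _ _ hF' ?_ ⟨h1', h2'⟩
    rintro ⟨e1, e2, e3, e4⟩
    rw [ZMod.intCast_zmod_eq_zero_iff_dvd] at e1 e2 e3 e4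
    exact hprim 2 Nat.prime_two ⟨e1, e2, e3, e4⟩
  have hfq : fq (XX x y z t) (YY x y z t) = 8 ^ k * (-N3 a' b' c') := by
    linear_combination hid - hk
  obtain ⟨X1, Y1, hX1⟩ := div_eight_pow k _ _ _ hfq hXY
  have hpos : 0 < -N3 a' b' c' := by
    rcases (fq_pos X1 Y1).eq_or_lt with h | h
    · exfalso
      rw [hX1] at h
      apply hodd
      have : N3 a' b' c' = 0 := by linarith
      rw [this]; exact dvd_zero _
    · rw [← hX1]; exact h
  obtain ⟨m, hm⟩ : ∃ m : ℕ, (m : ℤ) = -N3 a' b' c' := ⟨(-N3 a' b' c').toNat, by omega⟩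
  have hm0 : 0 < m := by
    rw [← hm] at hpos; exact_mod_cast hpos
  refine no_rep m hm0 ?_ X1 Y1 (by rw [hX1, hm])
  intro q hq hqm
  have := Fact.mk hq
  have hqN : (q : ℤ) ∣ N3 (Q0 x y z t) (Q1 x y z t) (Q2 x y z t) := by
    rw [hk]
    have : (q : ℤ) ∣ -N3 a' b' c' := by rw [← hm]; exact_mod_cast hqm
    exact ((dvd_neg).mp this).mul_left _
  have hq2 : q ≠ 2 := by
    rintro rfl
    apply hodd
    have : ((2 : ℕ) : ℤ) ∣ -N3 a' b' c' := by rw [← hm]; exact_mod_cast hqm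
    exact_mod_cast (dvd_neg).mp this
  have hq3 : q ≠ 3 := by
    rintro rfl
    have h3 : ((3 : ℕ) : ℤ) ∣ fq (XX x y z t) (YY x y z t) := by
      have h4 : fq (XX x y z t) (YY x y z t) = -N3 (Q0 x y z t) (Q1 x y z t) (Q2 x y z t) := by
        linear_combination hid
      rw [h4]; exact (dvd_neg).mpr hqN
    have h3' : ((fq (XX x y z t) (YY x y z t) : ℤ) : ZMod 3) = 0 :=
      (ZMod.intCast_zmod_eq_zero_iff_dvd _ 3).mpr h3
    have hF' : ((FF x y z t : ℤ) : ZMod 3) = 0 := by rw [hF]; simp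
    unfold fq XX YY at h3'
    unfold FF at hF'
    push_cast at h3' hF'
    refine mod3_fact _ _ _ _ hF' ?_ h3'
    rintro ⟨e1, e2, e3, e4⟩
    rw [ZMod.intCast_zmod_eq_zero_iff_dvd] at e1 e2 e3 e4
    exact hprim 3 Nat.prime_three ⟨e1, e2, e3, e4⟩
  refine ⟨hq2, hq3, ?_⟩
  by_contra hcon
  push Not at hcon
  obtain ⟨hq23, hnoroot⟩ := hcon
  have hnoroot' : ∀ r : ZMod q, r ^ 3 - r - 1 ≠ 0 := by
    intro r hr
    obtain ⟨r', rfl⟩ := ZMod.intCast_surjective r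
    apply hnoroot r'
    rw [← ZMod.intCast_zmod_eq_zero_iff_dvd]
    push_cast
    exact hr
  have hqN' : ((N3 (Q0 x y z t) (Q1 x y z t) (Q2 x y z t) : ℤ) : ZMod q) = 0 :=
    (ZMod.intCast_zmod_eq_zero_iff_dvd _ _).mpr hqN
  rw [N3_cast] at hqN'
  obtain ⟨h0, h1, h2⟩ := N3_aniso _ _ _ hqN' hnoroot'
  rw [ZMod.intCast_zmod_eq_zero_iff_dvd] at h0 h1 h2
  have hqz : Prime (q : ℤ) := Nat.prime_iff_prime_int.mp hq
  have hqC : ¬ (q : ℤ) ∣ 14001307500 := by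
    intro h
    have h' : q ∣ 2 ^ 2 * 3 * 5 ^ 4 * 23 ^ 2 * 3529 := by
      have : q ∣ 14001307500 := by exact_mod_cast h
      norm_num
      exact this
    have hp5 : Nat.Prime 5 := by norm_num
    have hp23 : Nat.Prime 23 := by norm_num
    have hp3529 : Nat.Prime 3529 := by norm_num
    rcases (Nat.Prime.dvd_mul hq).mp h' with h' | h'
    · rcases (Nat.Prime.dvd_mul hq).mp h' with h' | h'
      · rcases (Nat.Prime.dvd_mul hq).mp h' with h' | h'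
        · rcases (Nat.Prime.dvd_mul hq).mp h' with h' | h'
          · exact hq2 ((Nat.prime_dvd_prime_iff_eq hq Nat.prime_two).mp (hq.dvd_of_dvd_pow h'))
          · exact hq3 ((Nat.prime_dvd_prime_iff_eq hq Nat.prime_three).mp h')
        · have h5 := (Nat.prime_dvd_prime_iff_eq hq hp5).mp (hq.dvd_of_dvd_pow h')
          subst h5
          exact hnoroot 2 (by norm_num)
      · exact hq23 ((Nat.prime_dvd_prime_iff_eq hq hp23).mp (hq.dvd_of_dvd_pow h'))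
    · have h5 := (Nat.prime_dvd_prime_iff_eq hq hp3529).mp h'
      subst h5
      exact hnoroot 2743 (by norm_num)
  have hdiv : ∀ w : ℤ, (q : ℤ) ∣ 14001307500 * w ^ 6 → (q : ℤ) ∣ w := by
    intro w hw
    rcases hqz.dvd_or_dvd hw with h | h
    · exact absurd h hqC
    · exact hqz.dvd_of_dvd_pow h
  have hcomb : ∀ a b c d : ℤ, (q : ℤ) ∣ Q0 x y z t * a + Q1 x y z t * b + Q2 x y z t * c
      + FF x y z t * d := by
    intro a b c d
    rw [hF, zero_mul, add_zero]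
    exact dvd_add (dvd_add (h0.mul_right a) (h1.mul_right b)) (h2.mul_right c)
  apply hprim q hq
  refine ⟨?_, ?_, ?_, ?_⟩
  · apply hdiv
    have : (14001307500 : ℤ) * x ^ 6 = 529 * (26467500 * x ^ 6) := by ring
    rw [this]
    refine Dvd.dvd.mul_left ?_ _
    rw [cert_x x y z t]
    exact hcomb _ _ _ _
  · apply hdiv
    rw [cert_y x y z t]
    exact hcomb _ _ _ _
  · apply hdiv
    rw [cert_z x y z t]
    exact hcomb _ _ _ _
  · apply hdiv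
    rw [cert_t x y z t]
    exact hcomb _ _ _ _

theorem FF_scale (q x y z t : ℤ) : FF (q * x) (q * y) (q * z) (q * t) = q ^ 3 * FF x y z t := by
  unfold FF; ring

theorem no_solution (n : ℕ) : ∀ x y z t : ℤ,
    x.natAbs + y.natAbs + z.natAbs + t.natAbs ≤ n → FF x y z t = 0 →
    x = 0 ∧ y = 0 ∧ z = 0 ∧ t = 0 := by
  induction n using Nat.strong_induction_on with
  | _ n ih =>
  intro x y z t hn hF
  by_contra hne
  apply primitive_case x y z t hF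
  rintro q hq ⟨⟨x1, rfl⟩, ⟨y1, rfl⟩, ⟨z1, rfl⟩, ⟨t1, rfl⟩⟩
  have hq0 : (q : ℤ) ≠ 0 := by exact_mod_cast hq.ne_zero
  rw [FF_scale] at hF
  have hF1 : FF x1 y1 z1 t1 = 0 := by
    rcases mul_eq_zero.mp hF with h | h
    · exact absurd (pow_eq_zero_iff three_ne_zero |>.mp h) hq0
    · exact h
  apply hne
  have hlt : x1.natAbs + y1.natAbs + z1.natAbs + t1.natAbs <
      (q * x1).natAbs + (q * y1).natAbs + (q * z1).natAbs + (q * t1).natAbs := by
    rw [Int.natAbs_mul, Int.natAbs_mul, Int.natAbs_mul, Int.natAbs_mul, Int.natAbs_natCast]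
    have h2 := hq.two_le
    have hs : 0 < x1.natAbs + y1.natAbs + z1.natAbs + t1.natAbs := by
      rcases Nat.eq_zero_or_pos (x1.natAbs + y1.natAbs + z1.natAbs + t1.natAbs) with h | h
      · exfalso
        apply hne
        have e1 : x1 = 0 := by omega
        have e2 : y1 = 0 := by omega
        have e3 : z1 = 0 := by omega
        have e4 : t1 = 0 := by omega
        rw [e1, e2, e3, e4]; simp
      · exact h
    nlinarith
  obtain ⟨e1, e2, e3, e4⟩ := ih _ (lt_of_lt_of_le hlt hn) x1 y1 z1 t1 le_rfl hF1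
  rw [e1, e2, e3, e4]
  simp

end Pool.Agent.H887Cub
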