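import Mathlib

open MeasureTheory Module

namespace Pool.Agent.H887Cub

/-- The standard real basis of `ℂ³`. -/
noncomputable def bE : Basis (Σ _ : Fin 3, Fin 2) ℝ (Fin 3 → ℂ) :=
  Pi.basis fun _ => Complex.basisOneI

theorem fd_bE : ZSpan.fundamentalDomain bE =
    (Set.univ.pi fun _ => Complex.measurableEquivPi ⁻¹' (Set.univ.pi fun _ => Set.Ico 0 1)) := by
  ext x
  simp only [bE, ZSpan.mem_fundamentalDomain, Complex.measurableEquivPi, Set.mem_pi, Set.mem_univ,
    true_imp_iff, Set.mem_preimage]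
  constructor
  · intro h i j
    exact h ⟨i, j⟩
  · rintro h ⟨i, j⟩
    exact h i j

theorem vol_fd : volume (ZSpan.fundamentalDomain bE) = 1 := by
  rw [fd_bE, volume_pi, Measure.pi_pi]
  have : ∀ i : Fin 3, volume (Complex.measurableEquivPi ⁻¹' (Set.univ.pi fun _ : Fin 2 =>
      (Set.Ico 0 1 : Set ℝ))) = 1 := by
    intro i
    rw [Complex.volume_preserving_equiv_pi.measure_preimage ?_, volume_pi, Measure.pi_pi]
    · simp
    · exact (MeasurableSet.pi Set.countable_univ (fun _ _ => measurableSet_Ico)).nullMeasurableSet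
  rw [Finset.prod_congr rfl fun i _ => this i]
  simp

theorem vol_oct (r : ℝ) : volume {x : Fin 3 → ℂ | ∑ i, ‖x i‖ < r}
    = ENNReal.ofReal r ^ 6 * ENNReal.ofReal ((2 * Real.pi) ^ 3 / 720) := by
  have h := Complex.volume_sum_rpow_lt (Fin 3) (p := 1) le_rfl r
  simp only [Real.rpow_one, div_one, Fintype.card_fin, Nat.cast_ofNat] at h
  rw [h]
  have g1 : Real.Gamma (2 + 1) = 2 := by
    have := Real.Gamma_nat_eq_factorial 2
    norm_num [Nat.factorial] at this ⊢
  have g2 : Real.Gamma (2 * 3 + 1) = 720 := by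
    have := Real.Gamma_nat_eq_factorial 6
    norm_num [Nat.factorial] at this ⊢
  rw [g1, g2, mul_comm Real.pi 2]

theorem mink_gen (W : (Fin 3 → ℂ) →ₗ[ℝ] (Fin 3 → ℂ)) (hW : LinearMap.det W ≠ 0) (r : ℝ)
    (hr : 0 < r) (h : 64 * |LinearMap.det W| < r ^ 6 * ((2 * Real.pi) ^ 3 / 720)) :
    ∃ x : Fin 3 → ℂ, x ≠ 0 ∧ (∀ i, ∃ m n : ℤ, x i = m + n * Complex.I) ∧
      ∑ i, ‖W x i‖ < r := by
  have hfund := ZSpan.isAddFundamentalDomain' bE (volume : Measure (Fin 3 → ℂ))
  set S : Set (Fin 3 → ℂ) := W ⁻¹' {x | ∑ i, ‖x i‖ < r} with hS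
  have hsymm : ∀ x ∈ S, -x ∈ S := by
    intro x hx
    simp only [hS, Set.mem_preimage, Set.mem_ofPred_eq, map_neg, Pi.neg_apply, norm_neg] at hx ⊢
    exact hx
  have hconv : Convex ℝ S := by
    rw [hS]
    apply Convex.linear_preimage
    intro x hx y hy a b ha hb hab
    simp only [Set.mem_ofPred_eq] at hx hy ⊢
    have h1 : ∑ i, ‖(a • x + b • y) i‖ ≤ a * ∑ i, ‖x i‖ + b * ∑ i, ‖y i‖ := by
      rw [Finset.mul_sum, Finset.mul_sum, ← Finset.sum_add_distrib]
      refine Finset.sum_le_sum fun i _ => ?_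
      simp only [Pi.add_apply, Pi.smul_apply]
      refine (norm_add_le _ _).trans ?_
      rw [norm_smul, norm_smul, Real.norm_of_nonneg ha, Real.norm_of_nonneg hb]
    refine h1.trans_lt ?_
    rcases ha.eq_or_lt with ha0 | ha0
    · subst ha0
      have : b = 1 := by linarith
      subst this
      simpa using hy
    · nlinarith [mul_lt_mul_of_pos_left hx ha0, mul_le_mul_of_nonneg_left hy.le hb]
  have hvol : volume (ZSpan.fundamentalDomain bE) * 2 ^ finrank ℝ (Fin 3 → ℂ) < volume S := by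
    rw [vol_fd, hS, Measure.addHaar_preimage_linearMap _ hW, vol_oct]
    have hfr : finrank ℝ (Fin 3 → ℂ) = 6 := by
      rw [finrank_eq_card_basis bE]; simp
    rw [hfr, one_mul, ← ENNReal.ofReal_pow hr.le, ← ENNReal.ofReal_mul (by positivity),
      ← ENNReal.ofReal_mul (by positivity)]
    have h64 : (2 : ENNReal) ^ 6 = ENNReal.ofReal 64 := by
      rw [show (64 : ℝ) = 2 ^ 6 by norm_num, ENNReal.ofReal_pow (by norm_num)]
      norm_num
    rw [h64]
    apply (ENNReal.ofReal_lt_ofReal_iff (by positivity)).mpr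
    rw [abs_inv]
    have hd : 0 < |LinearMap.det W| := abs_pos.mpr hW
    rw [inv_mul_eq_div, lt_div_iff₀ hd]
    exact h
  have hcount : Countable (Submodule.span ℤ (Set.range bE)).toAddSubgroup :=
    inferInstanceAs (Countable (Submodule.span ℤ (Set.range bE)))
  obtain ⟨⟨x, hxL⟩, hx0, hxS⟩ := exists_ne_zero_mem_lattice_of_measure_mul_two_pow_lt_measure
    hfund hsymm hconv hvol
  refine ⟨x, ?_, ?_, hxS⟩
  · intro h0
    apply hx0
    ext1
    exact h0
  · intro i
    have hmem : x ∈ Submodule.span ℤ (Set.range bE) := hxL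
    have := (bE.mem_span_iff_repr_mem ℤ x).mp hmem
    obtain ⟨m, hm⟩ := this ⟨i, 0⟩
    obtain ⟨n, hn⟩ := this ⟨i, 1⟩
    refine ⟨m, n, ?_⟩
    simp only [bE, Pi.basis_repr, Complex.coe_basisOneI_repr, algebraMap_int_eq, eq_intCast,
      Matrix.cons_val_zero, Matrix.cons_val_one] at hm hn
    rw [← Complex.re_add_im (x i), ← hm, ← hn]
    push_cast
    ring

end Pool.Agent.H887Cub
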