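import Pool.Agent.H887_Cub.Small
import Pool.Agent.H887_Cub.Mink

open MeasureTheory Module

namespace Pool.Agent.H887Cub

/-- The roots of `X³ - X - 1`. -/
theorem exists_roots : ∃ x y : ℂ, x ^ 3 - x - 1 = 0 ∧ y ^ 2 + x * y + x ^ 2 - 1 = 0 := by
  obtain ⟨x, hx⟩ := IsAlgClosed.exists_root (Polynomial.X ^ 3 - Polynomial.X - 1 : Polynomial ℂ) (by
    have : (Polynomial.X ^ 3 - Polynomial.X - 1 : Polynomial ℂ).degree = 3 := by
      compute_degree!
    rw [this]; norm_num)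
  simp only [Polynomial.IsRoot.def, Polynomial.eval_sub, Polynomial.eval_pow, Polynomial.eval_X,
    Polynomial.eval_one] at hx
  obtain ⟨w, hw⟩ := IsAlgClosed.exists_pow_nat_eq (4 - 3 * x ^ 2 : ℂ) (n := 2) (by norm_num)
  refine ⟨x, (-x + w) / 2, hx, ?_⟩
  field_simp
  linear_combination hw

theorem prod_N3 (x y A B C : ℂ) (hx : x ^ 3 - x - 1 = 0) (hy : y ^ 2 + x * y + x ^ 2 - 1 = 0) :
    (A + B * x + C * x ^ 2) * (A + B * y + C * y ^ 2) * (A + B * (-x - y) + C * (-x - y) ^ 2)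
      = N3 A B C := by
  unfold N3
  linear_combination (C ^ 3 * x ^ 2 * y ^ 2 + C ^ 3 * x ^ 3 * y - C ^ 3 * x ^ 4
    + B * C ^ 2 * x * y ^ 2 + B * C ^ 2 * x ^ 2 * y + A * C ^ 2 * x * y + A * C ^ 2 * x ^ 2
    + A * C ^ 2 * y ^ 2 + C ^ 3 * x ^ 2 + 3 * A * B * C * x + B * C ^ 2 * x - B ^ 3 * x
    - A * B ^ 2 + A * C ^ 2 + 2 * A ^ 2 * C) * hy
    + (C ^ 3 * x ^ 3 - C ^ 3 * x - 3 * A * B * C - B * C ^ 2 + B ^ 3 + C ^ 3) * hx

theorem vand (x y : ℂ) (hx : x ^ 3 - x - 1 = 0) (hy : y ^ 2 + x * y + x ^ 2 - 1 = 0) :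
    ((y - x) * ((-x - y) - x) * ((-x - y) - y)) ^ 2 = -23 := by
  linear_combination (8 * x * y ^ 3 - 15 * x ^ 2 * y ^ 2 - 19 * x ^ 3 * y + 31 * x ^ 4
    + 4 * y ^ 4 + 4 * x * y - 23 * x ^ 2 + 4 * y ^ 2 + 4) * hy
    + (-27 * x ^ 3 + 27 * x - 27) * hx

/-- `√-23`. -/
noncomputable def sc : ℂ := (Real.sqrt 23 : ℝ) * Complex.I

theorem sc_sq : sc ^ 2 = -23 := by
  unfold sc
  rw [mul_pow, Complex.I_sq]
  norm_cast
  rw [Real.sq_sqrt (by norm_num)]
  norm_num

theorem sc_ne : sc ≠ 0 := by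
  intro h
  have := sc_sq
  rw [h] at this
  norm_num at this

/-- `(1 + √-23) / 2`. -/
noncomputable def th : ℂ := (1 + sc) / 2

theorem th_sq : th ^ 2 = th - 6 := by
  unfold th
  linear_combination (1 / 4 : ℂ) * sc_sq

theorem two_th : 2 * th - 1 = sc := by
  unfold th; ring

theorem th_re : th.re = 1 / 2 := by
  unfold th sc
  simp

theorem th_im : th.im = Real.sqrt 23 / 2 := by
  unfold th sc
  simp

/-- The third coordinate. -/
noncomputable def eta (x : ℂ) : ℂ := (x ^ 2 + 10 * x + 7) / sc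

theorem prod_Np (x y a b c : ℂ) (hx : x ^ 3 - x - 1 = 0) (hy : y ^ 2 + x * y + x ^ 2 - 1 = 0) :
    (a + b * x + c * eta x) * (a + b * y + c * eta y) * (a + b * (-x - y) + c * eta (-x - y))
      = Np sc a b c := by
  have h1 := prod_N3 x y (sc * a + 7 * c) (sc * b + 10 * c) c hx hy
  have h2 := Np_N3 sc a b c sc_sq
  have h3 : ∀ z : ℂ, sc * (a + b * z + c * eta z)
      = (sc * a + 7 * c) + (sc * b + 10 * c) * z + c * z ^ 2 := by
    intro z
    unfold eta
    field_simp [sc_ne]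
    ring
  have h4 : sc ^ 3 * ((a + b * x + c * eta x) * (a + b * y + c * eta y)
      * (a + b * (-x - y) + c * eta (-x - y))) = sc ^ 3 * Np sc a b c := by
    rw [h2, ← h1, ← h3, ← h3, ← h3]
    ring
  exact mul_left_cancel₀ (pow_ne_zero 3 sc_ne) h4

/-- The complex matrix of the embeddings. -/
noncomputable def Mx (x y : ℂ) : Matrix (Fin 3) (Fin 3) ℂ :=
  !![1, x, eta x; 1, y, eta y; 1, -x - y, eta (-x - y)]

theorem det_Mx (x y : ℂ) (hx : x ^ 3 - x - 1 = 0) (hy : y ^ 2 + x * y + x ^ 2 - 1 = 0) :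
    (Mx x y).det ^ 2 = 1 := by
  have h1 : (Mx x y).det = ((y - x) * ((-x - y) - x) * ((-x - y) - y)) / sc := by
    rw [Mx, Matrix.det_fin_three]
    simp only [Matrix.of_apply, Matrix.cons_val', Matrix.cons_val_zero, Matrix.cons_val_fin_one,
      Matrix.cons_val_one, Matrix.cons_val]
    unfold eta
    field_simp [sc_ne]
    ring
  rw [h1, div_pow, vand x y hx hy, sc_sq]
  norm_num

/-- The real-linear map `m + n i ↦ t m + n θ`. -/
noncomputable def ft (t : ℝ) : ℂ →ₗ[ℝ] ℂ where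
  toFun z := ((t * z.re : ℝ) : ℂ) + (z.im : ℝ) * th
  map_add' z w := by simp only [Complex.add_re, Complex.add_im]; push_cast; ring
  map_smul' c z := by
    simp only [RingHom.id_apply, Complex.real_smul, Complex.re_ofReal_mul, Complex.im_ofReal_mul]
    push_cast; ring

theorem det_ft (t : ℝ) : LinearMap.det (ft t) = t * (Real.sqrt 23 / 2) := by
  rw [← LinearMap.det_toMatrix Complex.basisOneI, Matrix.det_fin_two]
  simp only [LinearMap.toMatrix_apply, Complex.coe_basisOneI, Complex.coe_basisOneI_repr, ft,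
    LinearMap.coe_mk, AddHom.coe_mk, Matrix.cons_val_zero, Matrix.cons_val_one]
  simp [th_re, th_im]

/-- The linear functional of the shear. -/
noncomputable def phi (p u r e : ℝ) : (Fin 3 → ℂ) →ₗ[ℝ] ℝ where
  toFun x := -(u * (x 0).im + r * (x 1).re + r * u * (x 1).im + e * (x 2).re + e * u * (x 2).im) / p
  map_add' x y := by simp only [Pi.add_apply, Complex.add_re, Complex.add_im]; ring
  map_smul' c x := by
    simp only [Pi.smul_apply, RingHom.id_apply, Complex.real_smul, Complex.re_ofReal_mul,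
      Complex.im_ofReal_mul, smul_eq_mul]
    ring

/-- The diagonal part. -/
noncomputable def Dg (p : ℝ) : (Fin 3 → ℂ) →ₗ[ℝ] (Fin 3 → ℂ) :=
  LinearMap.pi (fun i => (ft (![p, 1, 1] i)).comp (LinearMap.proj i))

theorem det_Dg (p : ℝ) : LinearMap.det (Dg p) = p * (Real.sqrt 23 / 2) ^ 3 := by
  unfold Dg
  rw [LinearMap.det_pi, Fin.prod_univ_three, det_ft, det_ft, det_ft]
  simp only [Matrix.cons_val_zero, Matrix.cons_val_one, Matrix.cons_val]
  ring

/-- The whole map. -/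
noncomputable def Wm (p u r e : ℝ) (x y : ℂ) : (Fin 3 → ℂ) →ₗ[ℝ] (Fin 3 → ℂ) :=
  ((Matrix.toLin' (Mx x y)).restrictScalars ℝ) ∘ₗ (Dg p) ∘ₗ
    (LinearMap.transvection (phi p u r e) (Pi.single 0 1))

theorem det_Wm (p u r e : ℝ) (x y : ℂ) (hx : x ^ 3 - x - 1 = 0)
    (hy : y ^ 2 + x * y + x ^ 2 - 1 = 0) :
    LinearMap.det (Wm p u r e x y) = p * (Real.sqrt 23 / 2) ^ 3 := by
  unfold Wm
  rw [LinearMap.det_comp, LinearMap.det_comp, LinearMap.det_restrictScalars,
    LinearMap.det_toLin', det_Dg, LinearMap.transvection.det]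
  have h1 : phi p u r e (Pi.single 0 1) = 0 := by
    simp [phi]
  have h2 : Algebra.norm ℝ (Mx x y).det = 1 := by
    rw [Algebra.norm_complex_apply]
    have := det_Mx x y hx hy
    have h3 : Complex.normSq (Mx x y).det ^ 2 = 1 := by
      rw [← map_pow, this, map_one]
    have h4 := Complex.normSq_nonneg (Mx x y).det
    nlinarith
  rw [h1, h2]
  ring

theorem Wm_apply (p u r e : ℝ) (hp : p ≠ 0) (x y : ℂ) (v : Fin 3 → ℂ) :
    ∀ i, Wm p u r e x y v i =
      ((((p * (v 0).re - (u * (v 0).im + r * (v 1).re + r * u * (v 1).im + e * (v 2).re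
        + e * u * (v 2).im) : ℝ) : ℂ) + ((v 0).im : ℝ) * th))
      + ((((v 1).re : ℝ) : ℂ) + ((v 1).im : ℝ) * th) * (![x, y, -x - y] i)
      + ((((v 2).re : ℝ) : ℂ) + ((v 2).im : ℝ) * th) * eta (![x, y, -x - y] i) := by
  intro i
  have h0 : ∀ j, (Dg p ∘ₗ (LinearMap.transvection (phi p u r e) (Pi.single 0 1))) v j
      = ft (![p, 1, 1] j) ((v + phi p u r e v • (Pi.single 0 1 : Fin 3 → ℂ)) j) := by
    intro j; rfl
  have h1 : Wm p u r e x y v i = ∑ j, Mx x y i j *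
      ft (![p, 1, 1] j) ((v + phi p u r e v • (Pi.single 0 1 : Fin 3 → ℂ)) j) := by
    unfold Wm
    rw [LinearMap.comp_apply]
    simp only [LinearMap.coe_restrictScalars, Matrix.toLin'_apply, Matrix.mulVec, dotProduct]
    refine Finset.sum_congr rfl fun j _ => ?_
    rw [h0 j]
  have e0 : (v + phi p u r e v • (Pi.single 0 1 : Fin 3 → ℂ)) 0 = v 0 + ((phi p u r e v : ℝ) : ℂ) := by
    simp
  have e1 : (v + phi p u r e v • (Pi.single 0 1 : Fin 3 → ℂ)) 1 = v 1 := by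
    simp
  have e2 : (v + phi p u r e v • (Pi.single 0 1 : Fin 3 → ℂ)) 2 = v 2 := by
    simp
  rw [h1, Fin.sum_univ_three, e0, e1, e2]
  have hphi : p * phi p u r e v = -(u * (v 0).im + r * (v 1).re + r * u * (v 1).im + e * (v 2).re
      + e * u * (v 2).im) := by
    simp only [phi, LinearMap.coe_mk, AddHom.coe_mk]
    field_simp
  have f0 : ft (![p, 1, 1] 0) (v 0 + ((phi p u r e v : ℝ) : ℂ))
      = (((p * (v 0).re - (u * (v 0).im + r * (v 1).re + r * u * (v 1).im + e * (v 2).re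
        + e * u * (v 2).im) : ℝ) : ℂ) + ((v 0).im : ℝ) * th) := by
    simp only [ft, LinearMap.coe_mk, AddHom.coe_mk, Matrix.cons_val_zero, Complex.add_re,
      Complex.add_im, Complex.ofReal_re, Complex.ofReal_im, add_zero]
    rw [mul_add, hphi]
    push_cast
    ring
  have f1 : ft (![p, 1, 1] 1) (v 1) = ((((v 1).re : ℝ) : ℂ) + ((v 1).im : ℝ) * th) := by
    simp [ft]
  have f2 : ft (![p, 1, 1] 2) (v 2) = ((((v 2).re : ℝ) : ℂ) + ((v 2).im : ℝ) * th) := by
    simp [ft]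
  rw [f0, f1, f2]
  fin_cases i
  · simp [Mx]; ring
  · simp [Mx]; ring
  · simp [Mx]; ring

end Pool.Agent.H887Cub
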