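import Pool.Agent.H887_Cub.Lat

open MeasureTheory Module

namespace Pool.Agent.H887Cub

theorem normSq_th (A B : ℤ) : Complex.normSq ((A : ℂ) + (B : ℂ) * th) = ((nrm A B : ℤ) : ℝ) := by
  rw [Complex.normSq_apply]
  have h1 : ((A : ℂ) + (B : ℂ) * th).re = A + B / 2 := by
    simp [th_re, th_im]; ring
  have h2 : ((A : ℂ) + (B : ℂ) * th).im = B * (Real.sqrt 23 / 2) := by
    simp [th_re, th_im]
  rw [h1, h2]
  have h3 : Real.sqrt 23 * Real.sqrt 23 = 23 := Real.mul_self_sqrt (by norm_num)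
  unfold nrm
  push_cast
  linear_combination ((B : ℝ) ^ 2 / 4) * h3

theorem bound_const (p : ℝ) (hp : 0 < p) :
    64 * |p * (Real.sqrt 23 / 2) ^ 3| < (2916 * p) * ((2 * Real.pi) ^ 3 / 720) := by
  have hs : 0 < Real.sqrt 23 := Real.sqrt_pos.mpr (by norm_num)
  rw [abs_of_pos (by positivity)]
  have h3 : Real.sqrt 23 * Real.sqrt 23 = 23 := Real.mul_self_sqrt (by norm_num)
  have h4 : Real.sqrt 23 < 4.8 := by
    rw [Real.sqrt_lt' (by norm_num)]; norm_num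
  have h5 : Real.sqrt 23 ^ 3 = 23 * Real.sqrt 23 := by
    rw [pow_succ, pow_two, h3]
  have h6 : (3.14 : ℝ) < Real.pi := Real.pi_gt_d2
  have h7 : (3.14 : ℝ) ^ 3 < Real.pi ^ 3 := pow_lt_pow_left₀ h6 (by norm_num) (by norm_num)
  have h8 : 64 * (Real.sqrt 23 / 2) ^ 3 < 2916 * ((2 * Real.pi) ^ 3 / 720) := by
    have : 64 * (Real.sqrt 23 / 2) ^ 3 = 184 * Real.sqrt 23 := by
      rw [div_pow, h5]; ring
    rw [this]
    have : 2916 * ((2 * Real.pi) ^ 3 / 720) = 32.4 * Real.pi ^ 3 := by ring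
    rw [this]
    nlinarith
  calc 64 * (p * (Real.sqrt 23 / 2) ^ 3) = p * (64 * (Real.sqrt 23 / 2) ^ 3) := by ring
    _ < p * (2916 * ((2 * Real.pi) ^ 3 / 720)) := by
        exact mul_lt_mul_of_pos_left h8 hp
    _ = _ := by ring

theorem amgm (a b c : ℝ) (ha : 0 ≤ a) (hb : 0 ≤ b) (hc : 0 ≤ c) :
    27 * (a * b * c) ≤ (a + b + c) ^ 3 := by
  nlinarith [mul_nonneg ha (sq_nonneg (b - c)), mul_nonneg hb (sq_nonneg (a - c)),
    mul_nonneg hc (sq_nonneg (a - b)), mul_nonneg ha (sq_nonneg (a - b)),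
    mul_nonneg ha (sq_nonneg (a - c)), mul_nonneg hb (sq_nonneg (b - a)),
    mul_nonneg hb (sq_nonneg (b - c)), mul_nonneg hc (sq_nonneg (c - a)),
    mul_nonneg hc (sq_nonneg (c - b)), mul_nonneg (mul_nonneg ha hb) hc]

theorem small_norm (p : ℕ) (hp : 0 < p) (u r e : ℤ) :
    ∃ a0 a1 b0 b1 c0 c1 : ℤ,
      ¬ (a0 = 0 ∧ a1 = 0 ∧ b0 = 0 ∧ b1 = 0 ∧ c0 = 0 ∧ c1 = 0) ∧
      (p : ℤ) ∣ (a0 + a1 * u) + (b0 + b1 * u) * r + (c0 + c1 * u) * e ∧
      nrm (W0 a0 a1 b0 b1 c0 c1) (W1 a0 a1 b0 b1 c0 c1) < 4 * p := by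
  obtain ⟨x, y, hx, hy⟩ := exists_roots
  have hpR : (0 : ℝ) < p := by exact_mod_cast hp
  set R : ℝ := (2916 * p : ℝ) ^ ((1 : ℝ) / 6) with hR
  have hRpos : 0 < R := by positivity
  have hR6 : R ^ 6 = 2916 * p := by
    rw [hR, ← Real.rpow_natCast, ← Real.rpow_mul (by positivity)]
    norm_num
  have hdet : LinearMap.det (Wm p u r e x y) = p * (Real.sqrt 23 / 2) ^ 3 := det_Wm _ _ _ _ x y hx hy
  have hs : 0 < Real.sqrt 23 := Real.sqrt_pos.mpr (by norm_num)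
  obtain ⟨v, hv0, hvint, hvlt⟩ := mink_gen (Wm p u r e x y) (by rw [hdet]; positivity) R hRpos (by
    rw [hdet, hR6]; exact bound_const p hpR)
  choose m n hmn using hvint
  have hre : ∀ i, (v i).re = m i := by
    intro i; rw [hmn i]; simp
  have him : ∀ i, (v i).im = n i := by
    intro i; rw [hmn i]; simp
  set a0 : ℤ := p * m 0 - (u * n 0 + r * m 1 + r * u * n 1 + e * m 2 + e * u * n 2) with ha0
  refine ⟨a0, n 0, m 1, n 1, m 2, n 2, ?_, ?_, ?_⟩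
  · rintro ⟨h1, h2, h3, h4, h5, h6⟩
    apply hv0
    rw [h2, h3, h4, h5, h6] at ha0
    simp only [mul_zero, add_zero, sub_zero] at ha0
    rw [ha0] at h1
    have hm0 : m 0 = 0 := by
      rcases mul_eq_zero.mp h1 with h | h
      · exfalso
        have : p = 0 := by exact_mod_cast h
        omega
      · exact h
    funext i
    rw [hmn i]
    fin_cases i
    · simp [hm0, h2]
    · simp [h3, h4]
    · simp [h5, h6]
  · refine ⟨m 0, ?_⟩
    rw [ha0]; ring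
  · have happ : ∀ i, Wm p u r e x y v i =
        ((a0 : ℂ) + (n 0 : ℂ) * th) + ((m 1 : ℂ) + (n 1 : ℂ) * th) * (![x, y, -x - y] i)
          + ((m 2 : ℂ) + (n 2 : ℂ) * th) * eta (![x, y, -x - y] i) := by
      intro i
      rw [Wm_apply _ _ _ _ hpR.ne', hre, hre, hre, him, him, him, ha0]
      push_cast
      ring
    have hprod : Wm p u r e x y v 0 * Wm p u r e x y v 1 * Wm p u r e x y v 2
        = ((W0 a0 (n 0) (m 1) (n 1) (m 2) (n 2) : ℤ) : ℂ)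
          + ((W1 a0 (n 0) (m 1) (n 1) (m 2) (n 2) : ℤ) : ℂ) * th := by
      rw [W_eq th th_sq, two_th, happ, happ, happ, ← prod_Np x y _ _ _ hx hy]
      simp only [Matrix.cons_val_zero, Matrix.cons_val_one, Matrix.cons_val]
    have h1 : (((nrm (W0 a0 (n 0) (m 1) (n 1) (m 2) (n 2)) (W1 a0 (n 0) (m 1) (n 1) (m 2) (n 2)) : ℤ)
        : ℝ)) = (‖Wm p u r e x y v 0‖ * ‖Wm p u r e x y v 1‖ * ‖Wm p u r e x y v 2‖) ^ 2 := by
      rw [← normSq_th, ← hprod, Complex.normSq_eq_norm_sq, norm_mul, norm_mul]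
    rw [Fin.sum_univ_three] at hvlt
    have h2 := amgm _ _ _ (norm_nonneg (Wm p u r e x y v 0)) (norm_nonneg (Wm p u r e x y v 1))
      (norm_nonneg (Wm p u r e x y v 2))
    set S := ‖Wm p u r e x y v 0‖ + ‖Wm p u r e x y v 1‖ + ‖Wm p u r e x y v 2‖ with hS
    set Q := ‖Wm p u r e x y v 0‖ * ‖Wm p u r e x y v 1‖ * ‖Wm p u r e x y v 2‖ with hQ
    have hS0 : 0 ≤ S := by positivity
    have hQ0 : 0 ≤ Q := by positivity
    have h3 : S ^ 6 < R ^ 6 := pow_lt_pow_left₀ hvlt hS0 (by norm_num)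
    have h4 : (27 * Q) ^ 2 ≤ (S ^ 3) ^ 2 := pow_le_pow_left₀ (by positivity) h2 2
    have h5 : Q ^ 2 < 4 * p := by
      have : (S ^ 3) ^ 2 = S ^ 6 := by ring
      rw [this] at h4
      rw [hR6] at h3
      nlinarith
    rw [← h1] at h5
    exact_mod_cast h5

end Pool.Agent.H887Cub
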