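import Pool.Agent.H887_Cub.Alg

namespace Pool.Agent.H887Cub

theorem N3_aniso {K : Type*} [Field K] (a b c : K) (h : N3 a b c = 0)
    (hroot : ∀ r : K, r ^ 3 - r - 1 ≠ 0) : a = 0 ∧ b = 0 ∧ c = 0 := by
  by_cases hc : c = 0
  · subst hc
    by_cases hb : b = 0
    · subst hb
      have : a ^ 3 = 0 := by
        have := h; unfold N3 at this; linear_combination this
      exact ⟨by simpa using this, rfl, rfl⟩
    · exfalso
      apply hroot (-a / b)
      have h2 : a ^ 3 + b ^ 3 - a * b ^ 2 = 0 := by
        have := h; unfold N3 at this; linear_combination this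
      field_simp
      linear_combination -h2
  · exfalso
    have key : a * (b ^ 2 - a * c - c ^ 2) ^ 2 - b * (b ^ 2 - a * c - c ^ 2) * (a * b - c ^ 2)
        + c * (a * b - c ^ 2) ^ 2 = 0 := by
      have := h; unfold N3 at this; linear_combination c ^ 2 * this
    by_cases hα : b ^ 2 - a * c - c ^ 2 = 0
    · have hβ : a * b - c ^ 2 = 0 := by
        rw [hα] at key
        have h3 : c * (a * b - c ^ 2) ^ 2 = 0 := by linear_combination key
        rcases mul_eq_zero.mp h3 with h4 | h4
        · exact absurd h4 hc
        · exact pow_eq_zero_iff (two_ne_zero) |>.mp h4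
      apply hroot (b / c)
      field_simp
      linear_combination b * hα + c * hβ
    · apply hroot (-(a * b - c ^ 2) / (b ^ 2 - a * c - c ^ 2))
      set α := b ^ 2 - a * c - c ^ 2 with hαd
      set β := a * b - c ^ 2 with hβd
      have hc2 : c ^ 2 * ((-β / α) ^ 3 - (-β / α) - 1) = 0 := by
        have hg : c * (-β / α) ^ 2 + b * (-β / α) + a = 0 := by
          field_simp
          linear_combination key
        have : c ^ 2 * ((-β / α) ^ 3 - (-β / α) - 1)
            = (c * (-β / α) - b) * (c * (-β / α) ^ 2 + b * (-β / α) + a) + α * (-β / α) + β := by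
          rw [hαd, hβd]; ring
        rw [this, hg]
        field_simp
        ring
      rcases mul_eq_zero.mp hc2 with h5 | h5
      · exact absurd (pow_eq_zero_iff two_ne_zero |>.mp h5) hc
      · exact h5

end Pool.Agent.H887Cub
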