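import Pool.Agent.H887_Cub.Lat2

namespace Pool.Agent.H887Cub

/-- A prime `p` over which `X³ - X - 1` has a root and `X² - X + 6` has a root is a norm from
`ℤ[(1+√-23)/2]`. -/
theorem rep (p : ℕ) (hp : p.Prime) (h2 : p ≠ 2) (h3 : p ≠ 3) (h23 : p ≠ 23) (r : ℤ)
    (hr : (p : ℤ) ∣ r ^ 3 - r - 1) (u : ℤ) (hu : (p : ℤ) ∣ u ^ 2 - u + 6) :
    ∃ A B : ℤ, nrm A B = p := by
  have := Fact.mk hp
  have hru : (((u ^ 2 - u + 6 : ℤ)) : ZMod p) = 0 := (ZMod.intCast_zmod_eq_zero_iff_dvd _ _).mpr hu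
  have hrr : (((r ^ 3 - r - 1 : ℤ)) : ZMod p) = 0 := (ZMod.intCast_zmod_eq_zero_iff_dvd _ _).mpr hr
  push_cast at hru hrr
  have hs2 : (2 * (u : ZMod p) - 1) ^ 2 = -23 := by linear_combination 4 * hru
  have hs0 : (2 * (u : ZMod p) - 1) ≠ 0 := by
    intro h
    rw [h] at hs2
    have h4 : ((23 : ℕ) : ZMod p) = 0 := by
      push_cast
      linear_combination hs2
    rw [ZMod.natCast_eq_zero_iff] at h4
    exact h23 ((Nat.prime_dvd_prime_iff_eq hp (by norm_num)).mp h4)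
  obtain ⟨e, he⟩ : ∃ e : ℤ, (e : ZMod p) * (2 * (u : ZMod p) - 1)
      = (r : ZMod p) ^ 2 + 10 * (r : ZMod p) + 7 := by
    obtain ⟨e, he⟩ := ZMod.intCast_surjective
      (((r : ZMod p) ^ 2 + 10 * (r : ZMod p) + 7) / (2 * (u : ZMod p) - 1))
    refine ⟨e, ?_⟩
    rw [he, div_mul_cancel₀ _ hs0]
  obtain ⟨a0, a1, b0, b1, c0, c1, hnz, hdvd, hlt⟩ := small_norm p hp.pos u r e
  set A := W0 a0 a1 b0 b1 c0 c1 with hA
  set B := W1 a0 a1 b0 b1 c0 c1 with hB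
  have hpos : 0 < nrm A B := by
    rcases (nrm_nonneg A B).eq_or_lt with h | h
    · exfalso
      obtain ⟨hA0, hB0⟩ := nrm_eq_zero h.symm
      exact hnz (W_zero _ a0 a1 b0 b1 c0 c1 le_rfl hA0 hB0)
    · exact h
  have hzero : ((a0 : ZMod p) + a1 * u) + (b0 + b1 * u) * r + (c0 + c1 * u) * e = 0 := by
    have := (ZMod.intCast_zmod_eq_zero_iff_dvd _ _).mpr hdvd
    push_cast at this
    exact this
  have hdiv : (p : ℤ) ∣ A + B * u := by
    obtain ⟨k, hk⟩ := W_int u a0 a1 b0 b1 c0 c1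
    rw [← hA, ← hB] at hk
    rw [hk]
    refine dvd_add ?_ (hu.mul_right k)
    rw [← ZMod.intCast_zmod_eq_zero_iff_dvd, Np_cast]
    push_cast
    have h5 := Np_N3 (2 * (u : ZMod p) - 1) (a0 + a1 * u) (b0 + b1 * u) (c0 + c1 * u) hs2
    rw [N3_root _ _ _ (r : ZMod p) hrr] at h5
    have h6 : ((2 * (u : ZMod p) - 1) * (a0 + a1 * u) + 7 * (c0 + c1 * u))
        + ((2 * (u : ZMod p) - 1) * (b0 + b1 * u) + 10 * (c0 + c1 * u)) * r
        + (c0 + c1 * u) * (r : ZMod p) ^ 2 = 0 := by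
      linear_combination (2 * (u : ZMod p) - 1) * hzero - (c0 + c1 * u) * he
    rw [h6, zero_mul] at h5
    rcases mul_eq_zero.mp h5 with h7 | h7
    · exact absurd (pow_eq_zero_iff three_ne_zero |>.mp h7) hs0
    · exact h7
  have hpn : (p : ℤ) ∣ nrm A B := by
    rw [nrm_split u]
    exact dvd_add (hdiv.mul_right _) (hu.mul_right _)
  obtain ⟨m, hm⟩ := hpn
  have hp0 : (0 : ℤ) < p := by exact_mod_cast hp.pos
  have hm1 : 0 < m := by
    rw [hm] at hpos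
    exact (pos_iff_pos_of_mul_pos hpos).mp hp0
  have hm4 : m < 4 := by
    rw [hm] at hlt
    nlinarith
  have hcase : m = 1 ∨ m = 2 ∨ m = 3 := by omega
  rcases hcase with h | h | h
  · refine ⟨A, B, ?_⟩
    rw [hm, h, mul_one]
  · exfalso
    have h8 := eight_dvd a0 a1 b0 b1 c0 c1 (by rw [← hA, ← hB, hm, h]; exact Dvd.intro_left _ rfl)
    rw [← hA, ← hB, hm, h] at h8
    have h9 : (2 : ℤ) ∣ p := by omega
    have h10 : (2 : ℕ) ∣ p := by exact_mod_cast h9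
    exact h2 ((Nat.prime_dvd_prime_iff_eq (by norm_num) hp).mp h10).symm
  · exfalso
    have h8 := twentyseven_dvd a0 a1 b0 b1 c0 c1
      (by rw [← hA, ← hB, hm, h]; exact Dvd.intro_left _ rfl)
    rw [← hA, ← hB, hm, h] at h8
    have h9 : (3 : ℤ) ∣ p := by omega
    have h10 : (3 : ℕ) ∣ p := by exact_mod_cast h9
    exact h3 ((Nat.prime_dvd_prime_iff_eq (by norm_num) hp).mp h10).symm

end Pool.Agent.H887Cub
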