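import Pool.Agent.H887_Cub.Norm

namespace Pool.Agent.H887Cub

theorem W_int (u a0 a1 b0 b1 c0 c1 : ℤ) :
    ∃ k : ℤ, W0 a0 a1 b0 b1 c0 c1 + W1 a0 a1 b0 b1 c0 c1 * u
      = Np (2 * u - 1) (a0 + a1 * u) (b0 + b1 * u) (c0 + c1 * u) + (u ^ 2 - u + 6) * k := by
  refine ⟨-(2 * a1 * b1 * c1 * u ^ 2 - 2 * a1 ^ 2 * c1 * u ^ 2 - 2 * b1 ^ 2 * c1 * u ^ 2 + 2 * c1 ^ 3 *
    u ^ 2 - 4 * a0 * a1 * c1 * u + 2 * a0 * b1 * c1 * u + 2 * a1 * b0 * c1 * u + 2 * a1 * b1 *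
    c0 * u + a1 * b1 * c1 * u - a1 * b1 ^ 2 * u - 2 * a1 * c1 ^ 2 * u - 2 * a1 ^ 2 * c0 * u -
    a1 ^ 2 * c1 * u + a1 ^ 3 * u - 4 * b0 * b1 * c1 * u - 6 * b1 * c1 ^ 2 * u - 2 * b1 ^ 2 * c0
    * u - b1 ^ 2 * c1 * u + b1 ^ 3 * u + 6 * c0 * c1 ^ 2 * u + c1 ^ 3 * u - 4 * a0 * a1 * c0 -
    2 * a0 * a1 * c1 + 3 * a0 * a1 ^ 2 + 2 * a0 * b0 * c1 + 2 * a0 * b1 * c0 + a0 * b1 * c1 -
    a0 * b1 ^ 2 - 2 * a0 * c1 ^ 2 - 2 * a0 ^ 2 * c1 - 2 * a1 * b0 * b1 + 2 * a1 * b0 * c0 + a1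
    * b0 * c1 + a1 * b1 * c0 - 11 * a1 * b1 * c1 - a1 * b1 ^ 2 - 4 * a1 * c0 * c1 - 2 * a1 * c1
    ^ 2 - a1 ^ 2 * c0 + 11 * a1 ^ 2 * c1 + a1 ^ 3 - 4 * b0 * b1 * c0 - 2 * b0 * b1 * c1 + 3 *
    b0 * b1 ^ 2 - 6 * b0 * c1 ^ 2 - 2 * b0 ^ 2 * c1 - 12 * b1 * c0 * c1 - 6 * b1 * c1 ^ 2 - b1
    ^ 2 * c0 + 11 * b1 ^ 2 * c1 + b1 ^ 3 + 3 * c0 * c1 ^ 2 + 6 * c0 ^ 2 * c1 - 11 * c1 ^ 3), ?_⟩
  unfold W0 W1 Np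
  ring

theorem Np_cast (n : ℕ) (s a b c : ℤ) : ((Np s a b c : ℤ) : ZMod n) = Np (s : ZMod n) a b c := by
  unfold Np; push_cast; ring

theorem N3_cast (n : ℕ) (a b c : ℤ) : ((N3 a b c : ℤ) : ZMod n) = N3 (a : ZMod n) b c := by
  unfold N3; push_cast; ring

theorem aniso2 : ∀ s a b c : ZMod 2, s ≠ 0 → Np s a b c = 0 → a = 0 ∧ b = 0 ∧ c = 0 := by
  unfold Np; decide

theorem aniso3 : ∀ s a b c : ZMod 3, s ≠ 0 → Np s a b c = 0 → a = 0 ∧ b = 0 ∧ c = 0 := by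
  unfold Np; decide

/-- The norm form of `ℤ[(1+√-23)/2]`. -/
def nrm (A B : ℤ) : ℤ := A ^ 2 + A * B + 6 * B ^ 2

theorem nrm_nonneg (A B : ℤ) : 0 ≤ nrm A B := by
  unfold nrm; nlinarith [sq_nonneg (2 * A + B), sq_nonneg B]

theorem nrm_eq_zero {A B : ℤ} (h : nrm A B = 0) : A = 0 ∧ B = 0 := by
  unfold nrm at h
  have hB : B = 0 := by
    by_contra hB
    have : 0 < B ^ 2 := by positivity
    nlinarith [sq_nonneg (2 * A + B)]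
  subst hB
  constructor
  · have : A ^ 2 = 0 := by linarith
    exact pow_eq_zero_iff two_ne_zero |>.mp this
  · rfl

theorem step (l : ℕ) (s u : ℤ) (hs : s = 2 * u - 1)
    (haniso : ∀ s a b c : ZMod l, s ≠ 0 → Np s a b c = 0 → a = 0 ∧ b = 0 ∧ c = 0)
    (hs0 : ((s : ℤ) : ZMod l) ≠ 0) (hu : ((l : ℤ) ^ 3) ∣ u ^ 2 - u + 6) (a0 a1 b0 b1 c0 c1 : ℤ)
    (h : (l : ℤ) ∣ W0 a0 a1 b0 b1 c0 c1 + W1 a0 a1 b0 b1 c0 c1 * u) :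
    ((l : ℤ) ∣ a0 + a1 * u ∧ (l : ℤ) ∣ b0 + b1 * u ∧ (l : ℤ) ∣ c0 + c1 * u) ∧
    ((l : ℤ) ^ 3) ∣ W0 a0 a1 b0 b1 c0 c1 + W1 a0 a1 b0 b1 c0 c1 * u := by
  obtain ⟨k, hk⟩ := W_int u a0 a1 b0 b1 c0 c1
  rw [hk] at h ⊢
  rw [← hs] at h ⊢
  have h1 : (l : ℤ) ∣ Np s (a0 + a1 * u) (b0 + b1 * u) (c0 + c1 * u) := by
    have : (l : ℤ) ∣ (u ^ 2 - u + 6) * k := by
      refine Dvd.dvd.mul_right ?_ k
      exact (dvd_pow_self (l : ℤ) three_ne_zero).trans hu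
    exact (Int.dvd_add_left this).mp h
  rw [← ZMod.intCast_zmod_eq_zero_iff_dvd, Np_cast] at h1
  obtain ⟨ha, hb, hc⟩ := haniso _ _ _ _ hs0 h1
  rw [ZMod.intCast_zmod_eq_zero_iff_dvd] at ha hb hc
  refine ⟨⟨ha, hb, hc⟩, ?_⟩
  refine dvd_add ?_ (hu.mul_right k)
  obtain ⟨α, ha⟩ := ha
  obtain ⟨β, hb⟩ := hb
  obtain ⟨γ, hc⟩ := hc
  rw [ha, hb, hc]
  refine ⟨Np s α β γ, ?_⟩
  unfold Np; ring

theorem nrm_split (u A B : ℤ) :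
    nrm A B = (A + B * u) * (A + B * (1 - u)) + (u ^ 2 - u + 6) * B ^ 2 := by
  unfold nrm; ring

theorem cube_dvd (l : ℕ) (hl : l.Prime) (u : ℤ)
    (haniso : ∀ s a b c : ZMod l, s ≠ 0 → Np s a b c = 0 → a = 0 ∧ b = 0 ∧ c = 0)
    (hs0 : (((2 * u - 1 : ℤ)) : ZMod l) ≠ 0) (hu : ((l : ℤ) ^ 3) ∣ u ^ 2 - u + 6)
    (a0 a1 b0 b1 c0 c1 : ℤ)
    (h : (l : ℤ) ∣ nrm (W0 a0 a1 b0 b1 c0 c1) (W1 a0 a1 b0 b1 c0 c1)) :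
    ((l : ℤ) ^ 3) ∣ nrm (W0 a0 a1 b0 b1 c0 c1) (W1 a0 a1 b0 b1 c0 c1) := by
  have hlu : (l : ℤ) ∣ u ^ 2 - u + 6 := (dvd_pow_self (l : ℤ) three_ne_zero).trans hu
  rw [nrm_split u] at h ⊢
  have h2 : (l : ℤ) ∣ (W0 a0 a1 b0 b1 c0 c1 + W1 a0 a1 b0 b1 c0 c1 * u) *
      (W0 a0 a1 b0 b1 c0 c1 + W1 a0 a1 b0 b1 c0 c1 * (1 - u)) :=
    (Int.dvd_add_left (hlu.mul_right _)).mp h
  refine dvd_add ?_ (hu.mul_right _)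
  rcases (Nat.prime_iff_prime_int.mp hl).dvd_or_dvd h2 with h3 | h3
  · exact Dvd.dvd.mul_right (step l _ u rfl haniso hs0 hu _ _ _ _ _ _ h3).2 _
  · refine Dvd.dvd.mul_left (step l _ (1 - u) rfl haniso ?_ ?_ _ _ _ _ _ _ h3).2 _
    · intro h4
      apply hs0
      have : ((2 * u - 1 : ℤ) : ZMod l) = - ((2 * (1 - u) - 1 : ℤ) : ZMod l) := by
        push_cast; ring
      rw [this, h4, neg_zero]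
    · have : (1 - u) ^ 2 - (1 - u) + 6 = u ^ 2 - u + 6 := by ring
      rw [this]; exact hu

theorem eight_dvd (a0 a1 b0 b1 c0 c1 : ℤ)
    (h : (2 : ℤ) ∣ nrm (W0 a0 a1 b0 b1 c0 c1) (W1 a0 a1 b0 b1 c0 c1)) :
    (8 : ℤ) ∣ nrm (W0 a0 a1 b0 b1 c0 c1) (W1 a0 a1 b0 b1 c0 c1) := by
  have := cube_dvd 2 Nat.prime_two 2 aniso2 (by decide) (by norm_num) a0 a1 b0 b1 c0 c1
    (by exact_mod_cast h)
  norm_num at this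
  exact this

theorem twentyseven_dvd (a0 a1 b0 b1 c0 c1 : ℤ)
    (h : (3 : ℤ) ∣ nrm (W0 a0 a1 b0 b1 c0 c1) (W1 a0 a1 b0 b1 c0 c1)) :
    (27 : ℤ) ∣ nrm (W0 a0 a1 b0 b1 c0 c1) (W1 a0 a1 b0 b1 c0 c1) := by
  have := cube_dvd 3 Nat.prime_three 15 aniso3 (by decide) (by norm_num) a0 a1 b0 b1 c0 c1
    (by exact_mod_cast h)
  norm_num at this
  exact this

theorem W_homog (t a0 a1 b0 b1 c0 c1 : ℤ) :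
    W0 (t * a0) (t * a1) (t * b0) (t * b1) (t * c0) (t * c1) = t ^ 3 * W0 a0 a1 b0 b1 c0 c1 ∧
    W1 (t * a0) (t * a1) (t * b0) (t * b1) (t * c0) (t * c1) = t ^ 3 * W1 a0 a1 b0 b1 c0 c1 := by
  constructor
  · unfold W0; ring
  · unfold W1; ring

/-- The relative norm vanishes only at zero. -/
theorem W_zero (n : ℕ) : ∀ a0 a1 b0 b1 c0 c1 : ℤ,
    a0.natAbs + a1.natAbs + b0.natAbs + b1.natAbs + c0.natAbs + c1.natAbs ≤ n →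
    W0 a0 a1 b0 b1 c0 c1 = 0 → W1 a0 a1 b0 b1 c0 c1 = 0 →
    a0 = 0 ∧ a1 = 0 ∧ b0 = 0 ∧ b1 = 0 ∧ c0 = 0 ∧ c1 = 0 := by
  induction n using Nat.strong_induction_on with
  | _ n ih =>
  intro a0 a1 b0 b1 c0 c1 hn h0 h1
  have s1 := (step 2 _ 2 rfl aniso2 (by decide) (by norm_num) a0 a1 b0 b1 c0 c1
    (by rw [h0, h1]; norm_num)).1
  have s2 := (step 2 _ (-1) rfl aniso2 (by decide) (by norm_num) a0 a1 b0 b1 c0 c1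
    (by rw [h0, h1]; norm_num)).1
  obtain ⟨⟨x1, x2, x3⟩, y1, y2, y3⟩ := And.intro s1 s2
  push_cast at x1 x2 x3 y1 y2 y3
  obtain ⟨a0', rfl⟩ : (2 : ℤ) ∣ a0 := by omega
  obtain ⟨a1', rfl⟩ : (2 : ℤ) ∣ a1 := by omega
  obtain ⟨b0', rfl⟩ : (2 : ℤ) ∣ b0 := by omega
  obtain ⟨b1', rfl⟩ : (2 : ℤ) ∣ b1 := by omega
  obtain ⟨c0', rfl⟩ : (2 : ℤ) ∣ c0 := by omega
  obtain ⟨c1', rfl⟩ : (2 : ℤ) ∣ c1 := by omega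
  have hh := W_homog 2 a0' a1' b0' b1' c0' c1'
  rw [hh.1] at h0
  rw [hh.2] at h1
  have h0' : W0 a0' a1' b0' b1' c0' c1' = 0 := by linarith
  have h1' : W1 a0' a1' b0' b1' c0' c1' = 0 := by linarith
  rcases Nat.eq_zero_or_pos (a0'.natAbs + a1'.natAbs + b0'.natAbs + b1'.natAbs + c0'.natAbs
    + c1'.natAbs) with hz | hz
  · omega
  · have := ih (a0'.natAbs + a1'.natAbs + b0'.natAbs + b1'.natAbs + c0'.natAbs + c1'.natAbs)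
      (by omega) a0' a1' b0' b1' c0' c1' le_rfl h0' h1'
    omega

end Pool.Agent.H887Cub
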